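import Mathlib

/-!
# Fixed points of weakly contractive set-valued maps (MP_e93574_an)

Every set-valued map on a complete metric space with nonempty closed bounded values that is
weakly contractive with respect to some gauge of the class `IsClassA` has a fixed point.
-/

open scoped NNReal Topology
open Filter

namespace Pool.Agent.Results.MP_e93574_an.WeakContr

/-- The class `Γ`: continuous nondecreasing subadditive maps of the half line vanishing exactly
at `0`. -/
def IsGamma (γ : ℝ≥0 → ℝ≥0) : Prop :=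
  Continuous γ ∧ Monotone γ ∧ (∀ s t, γ (s + t) ≤ γ s + γ t) ∧ γ ⁻¹' {0} = {0}

/-- The class `𝒜`: the maps `θ` of the half line such that for some `ε₀ > 0` and some `γ ∈ Γ`,
`θ t ≤ ε₀` implies `γ t ≤ θ t`. -/
def IsClassA (θ : ℝ≥0 → ℝ≥0) : Prop :=
  ∃ ε₀ : ℝ≥0, 0 < ε₀ ∧ ∃ γ : ℝ≥0 → ℝ≥0, IsGamma γ ∧ ∀ t, θ t ≤ ε₀ → γ t ≤ θ t

/-- `T` takes values in the nonempty closed bounded sets. -/
def IsCBValued {X : Type*} [MetricSpace X] (T : X → Set X) : Prop :=
  ∀ x, (T x).Nonempty ∧ IsClosed (T x) ∧ Bornology.IsBounded (T x)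

/-- `T` is weakly contractive with respect to `θ`: the Hausdorff distance of `T x` and `T y` is at
most `d(x,y) - θ(d(x,y))`. -/
def IsWeaklyContractive {X : Type*} [MetricSpace X] (θ : ℝ≥0 → ℝ≥0) (T : X → Set X) : Prop :=
  ∀ x y, Metric.hausdorffDist (T x) (T y) ≤ dist x y - (θ (nndist x y) : ℝ)

lemma gamma_nsmul {γ : ℝ≥0 → ℝ≥0} (h : IsGamma γ) (n : ℕ) (t : ℝ≥0) :
    γ ((n : ℝ≥0) * t) ≤ n * γ t := by
  induction n with
  | zero =>
    have h0 : γ 0 = 0 := by
      have : (0 : ℝ≥0) ∈ γ ⁻¹' {0} := by rw [h.2.2.2]; rfl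
      exact this
    simp [h0]
  | succ n ih =>
    have h1 := h.2.2.1 ((n : ℝ≥0) * t) t
    have h2 : ((n + 1 : ℕ) : ℝ≥0) * t = (n : ℝ≥0) * t + t := by push_cast; ring
    rw [h2]
    refine h1.trans ?_
    calc γ ((n : ℝ≥0) * t) + γ t ≤ n * γ t + γ t := by gcongr
      _ = ((n + 1 : ℕ) : ℝ≥0) * γ t := by push_cast; ring

lemma exists_const {θ : ℝ≥0 → ℝ≥0} (h : IsClassA θ) :
    ∃ c : ℝ, 0 < c ∧ c ≤ 1 ∧ ∀ t : ℝ≥0, c * min (t : ℝ) 1 ≤ θ t := by
  obtain ⟨ε₀, hε, γ, hγ, hθ⟩ := h
  have hγ1 : 0 < γ 1 := by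
    rw [pos_iff_ne_zero]
    intro h0
    have : (1 : ℝ≥0) ∈ γ ⁻¹' {0} := h0
    rw [hγ.2.2.2] at this
    exact one_ne_zero this
  have hγ1' : (0 : ℝ) < γ 1 := by exact_mod_cast hγ1
  have hε' : (0 : ℝ) < ε₀ := by exact_mod_cast hε
  -- lower bound for γ
  have hlow : ∀ t : ℝ≥0, (γ 1 : ℝ) / 2 * min (t : ℝ) 1 ≤ γ t := by
    intro t
    rcases le_total 1 t with ht | ht
    · have h1 : (γ 1 : ℝ) ≤ γ t := by exact_mod_cast hγ.2.1 ht
      have h2 : min (t : ℝ) 1 ≤ 1 := min_le_right _ _
      nlinarith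
    · rcases eq_or_ne t 0 with rfl | ht0
      · simp
      · have htpos : (0 : ℝ) < t := by
          have : 0 < t := pos_iff_ne_zero.mpr ht0
          exact_mod_cast this
        have ht1 : (t : ℝ) ≤ 1 := by exact_mod_cast ht
        rw [min_eq_left ht1]
        obtain ⟨n, hn⟩ : ∃ n : ℕ, n = ⌈(1 : ℝ) / t⌉₊ := ⟨_, rfl⟩
        have hn1 : (1 : ℝ) / t ≤ n := by rw [hn]; exact Nat.le_ceil _
        have hn2 : (n : ℝ) < 1 / t + 1 := by
          rw [hn]; exact Nat.ceil_lt_add_one (by positivity)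
        have hnt : (1 : ℝ) ≤ n * t := by
          rw [div_le_iff₀ htpos] at hn1; exact hn1
        have hnt' : (1 : ℝ≥0) ≤ n * t := by exact_mod_cast hnt
        have h3 : γ 1 ≤ n * γ t := (hγ.2.1 hnt').trans (gamma_nsmul hγ n t)
        have h4 : (γ 1 : ℝ) ≤ n * γ t := by exact_mod_cast h3
        have h5 : (n : ℝ) * t ≤ 2 := by
          have : (n : ℝ) * t ≤ (1 / t + 1) * t := by gcongr
          have h6 : (1 / (t : ℝ) + 1) * t = 1 + t := by field_simp
          linarith
        have h7 : (0 : ℝ) ≤ γ t := NNReal.coe_nonneg _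
        have : (γ 1 : ℝ) * t ≤ 2 * γ t := by
          calc (γ 1 : ℝ) * t ≤ (n * γ t) * t := by gcongr
            _ = (n * t) * γ t := by ring
            _ ≤ 2 * γ t := by gcongr
        linarith
  refine ⟨min (min (ε₀ : ℝ) (γ 1 / 2)) 1, by positivity, min_le_right _ _, ?_⟩
  intro t
  have hm0 : 0 ≤ min (t : ℝ) 1 := le_min (NNReal.coe_nonneg _) zero_le_one
  have hm1 : min (t : ℝ) 1 ≤ 1 := min_le_right _ _
  rcases le_or_gt (θ t) ε₀ with h | h
  · have h1 : (γ t : ℝ) ≤ θ t := by exact_mod_cast hθ t h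
    calc min (min (ε₀ : ℝ) (γ 1 / 2)) 1 * min (t : ℝ) 1
        ≤ (γ 1 / 2) * min (t : ℝ) 1 := by
          gcongr
          exact (min_le_left _ _).trans (min_le_right _ _)
      _ ≤ γ t := hlow t
      _ ≤ θ t := h1
  · have h1 : (ε₀ : ℝ) ≤ θ t := by exact_mod_cast h.le
    calc min (min (ε₀ : ℝ) (γ 1 / 2)) 1 * min (t : ℝ) 1
        ≤ ε₀ * 1 := by
          gcongr
          exact (min_le_left _ _).trans (min_le_left _ _)
      _ = ε₀ := mul_one _
      _ ≤ θ t := h1

/-- **Theorem.** A weakly contractive set-valued map with nonempty closed bounded values on a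
(nonempty) complete metric space has a fixed point, for every gauge `θ` of the class `𝒜`. -/
theorem result {X : Type*} [MetricSpace X] [CompleteSpace X] [Nonempty X]
    (θ : ℝ≥0 → ℝ≥0) (hθ : IsClassA θ) (T : X → Set X) (hT : IsCBValued T)
    (hTc : IsWeaklyContractive θ T) : ∃ x, x ∈ T x := by
  classical
  obtain ⟨c, hc0, hc1, hc⟩ := exists_const hθ
  have hfin : ∀ x y, Metric.hausdorffEDist (T x) (T y) ≠ ⊤ := fun x y =>
    Metric.hausdorffEDist_ne_top_of_nonempty_of_bounded (hT x).1 (hT y).1 (hT x).2.2 (hT y).2.2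
  have hcx : ∀ x y, Metric.hausdorffDist (T x) (T y) ≤ dist x y - c * min (dist x y) 1 := by
    intro x y
    have h1 := hTc x y
    have h2 := hc (nndist x y)
    rw [coe_nndist] at h2
    linarith
  -- one step
  have step : ∀ x y, y ∈ T x → ∃ z ∈ T y, dist y z ≤ dist x y - c / 2 * min (dist x y) 1 := by
    intro x y hy
    rcases eq_or_lt_of_le (dist_nonneg (x := x) (y := y)) with h0 | h0
    · have hxy : x = y := dist_eq_zero.mp h0.symm
      subst hxy
      exact ⟨x, hy, by simp⟩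
    · have hm : 0 < min (dist x y) 1 := lt_min h0 zero_lt_one
      have hlt : Metric.hausdorffDist (T x) (T y) < dist x y - c / 2 * min (dist x y) 1 := by
        have := hcx x y
        nlinarith
      obtain ⟨z, hz, hz'⟩ := Metric.exists_dist_lt_of_hausdorffDist_lt hy hlt (hfin x y)
      exact ⟨z, hz, hz'.le⟩
  choose! nxt hnxt using step
  obtain ⟨x0⟩ := ‹Nonempty X›
  obtain ⟨y0, hy0⟩ := (hT x0).1
  let p : ℕ → X × X := fun n => Nat.rec (x0, y0) (fun _ q => (q.2, nxt q.1 q.2)) n
  have hp0 : p 0 = (x0, y0) := rfl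
  have hps : ∀ n, p (n + 1) = ((p n).2, nxt (p n).1 (p n).2) := fun n => rfl
  have hmem : ∀ n, (p n).2 ∈ T (p n).1 := by
    intro n
    induction n with
    | zero => exact hy0
    | succ n ih => rw [hps]; exact (hnxt _ _ ih).1
  set u : ℕ → X := fun n => (p n).1 with hu
  have hu1 : ∀ n, u (n + 1) = (p n).2 := fun n => by simp only [hu, hps]
  have hd : ∀ n, dist (u (n + 1)) (u (n + 2))
      ≤ dist (u n) (u (n + 1)) - c / 2 * min (dist (u n) (u (n + 1))) 1 := by
    intro n
    have h2 : u (n + 2) = nxt (p n).1 (p n).2 := by rw [hu1 (n + 1), hps]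
    rw [h2, hu1]
    exact (hnxt _ _ (hmem n)).2
  have humem : ∀ n, u (n + 1) ∈ T (u n) := fun n => by rw [hu1]; exact hmem n
  set D : ℝ := max (dist (u 0) (u 1)) 1 with hD
  have hD1 : 1 ≤ D := le_max_right _ _
  have hD0 : 0 < D := by linarith
  have hbound : ∀ n, dist (u n) (u (n + 1)) ≤ D := by
    intro n
    induction n with
    | zero => exact le_max_left _ _
    | succ n ih =>
      have h1 := hd n
      have h2 : 0 ≤ min (dist (u n) (u (n + 1))) 1 := le_min dist_nonneg zero_le_one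
      have h3 : 0 ≤ c / 2 * min (dist (u n) (u (n + 1))) 1 := by positivity
      linarith
  have hmin : ∀ n, dist (u n) (u (n + 1)) / D ≤ min (dist (u n) (u (n + 1))) 1 := by
    intro n
    refine le_min ?_ ?_
    · rw [div_le_iff₀ hD0]
      nlinarith [dist_nonneg (x := u n) (y := u (n + 1))]
    · rw [div_le_one hD0]
      exact hbound n
  set k : ℝ := 1 - c / (2 * D) with hk
  have hk1 : k < 1 := by
    have : 0 < c / (2 * D) := by positivity
    linarith
  have hk0 : 0 ≤ k := by
    have : c / (2 * D) ≤ 1 := by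
      rw [div_le_one (by positivity)]
      linarith
    linarith
  have hgeo : ∀ n, dist (u n) (u (n + 1)) ≤ dist (u 0) (u 1) * k ^ n := by
    intro n
    induction n with
    | zero => simp
    | succ n ih =>
      have h1 := hd n
      have h2 := hmin n
      have h3 : dist (u (n + 1)) (u (n + 2)) ≤ k * dist (u n) (u (n + 1)) := by
        have h4 : c / 2 * (dist (u n) (u (n + 1)) / D) ≤ c / 2 * min (dist (u n) (u (n + 1))) 1 := by
          gcongr
        have h5 : c / 2 * (dist (u n) (u (n + 1)) / D) = c / (2 * D) * dist (u n) (u (n + 1)) := by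
          field_simp
        rw [hk]
        linarith
      calc dist (u (n + 1)) (u (n + 2)) ≤ k * dist (u n) (u (n + 1)) := h3
        _ ≤ k * (dist (u 0) (u 1) * k ^ n) := by gcongr
        _ = dist (u 0) (u 1) * k ^ (n + 1) := by ring
  have hcau : CauchySeq u := cauchySeq_of_le_geometric k (dist (u 0) (u 1)) hk1 hgeo
  obtain ⟨x, hx⟩ := cauchySeq_tendsto_of_complete hcau
  refine ⟨x, ?_⟩
  have hcl : x ∈ closure (T x) := by
    rw [Metric.mem_closure_iff_infDist_zero (hT x).1]
    have hle : ∀ n, Metric.infDist x (T x) ≤ dist x (u (n + 1)) + dist (u n) x := by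
      intro n
      have h1 : Metric.infDist x (T x) ≤ Metric.infDist (u (n + 1)) (T x) + dist x (u (n + 1)) :=
        Metric.infDist_le_infDist_add_dist
      have h2 : Metric.infDist (u (n + 1)) (T x) ≤ Metric.hausdorffDist (T (u n)) (T x) :=
        Metric.infDist_le_hausdorffDist_of_mem (humem n) (hfin _ _)
      have h3 := hcx (u n) x
      have h4 : 0 ≤ c * min (dist (u n) x) 1 := by
        have : 0 ≤ min (dist (u n) x) 1 := le_min dist_nonneg zero_le_one
        positivity
      linarith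
    have ht : Tendsto (fun n => dist x (u (n + 1)) + dist (u n) x) atTop (𝓝 (0 + 0)) := by
      refine Tendsto.add ?_ ?_
      · have h1 : Tendsto (fun n => u (n + 1)) atTop (𝓝 x) := (tendsto_add_atTop_iff_nat 1).mpr hx
        have h2 := (tendsto_const_nhds (x := x)).dist h1
        simpa using h2
      · exact tendsto_iff_dist_tendsto_zero.mp hx
    rw [add_zero] at ht
    exact le_antisymm (ge_of_tendsto' ht hle) Metric.infDist_nonneg
  rwa [(hT x).2.1.closure_eq] at hcl

end Pool.Agent.Results.MP_e93574_an.WeakContr
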